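import Pool.Agent.helper20.Sz.Main
import Pool.Agent.helper20.Sz.Stmt

/-!
# Every page of Szabó's spectral sequence is the sum of two shifted copies of the reduced page

All definitions used by the statement are in `Pool/Agent/helper20/Sz/Defs.lean` and
`Pool/Agent/helper20/Sz/Stmt.lean`.
-/

namespace Pool.Agent.Results.MP_e07446_gt.AllPagesSplit

open Pool.Agent.helper20.Sz

/-- For every planar link diagram `D` with orientation `o` and decoration `t`, every point `P` of `D`
and every `k ≥ 2`, in every bidegree, `E^k(L) ≅ Ẽ^k(L,c){-1} ⊕ Ẽ^k(L,c){1}`; moreover Szabó's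
differential has square zero. -/
theorem result (D : LinkDiagram) (o : D.Orient) (t : Fin D.n → Bool) (rot s0 : Bool)
    (P : D.Point) :
    (∀ φ, (D.szabo o t rot s0).dFun ((D.szabo o t rot s0).dFun φ) = 0) ∧
    ∀ k : ℕ, 2 ≤ k → ∀ h q : ℤ, Nonempty ((D.szabo o t rot s0).E k h q ≃ₗ[ZMod 2]
      (D.szaboRed o t rot s0 P).E k h (q + 1) × (D.szaboRed o t rot s0 P).E k h (q - 1)) :=
  Main.main D o t rot s0 P

end Pool.Agent.Results.MP_e07446_gt.AllPagesSplit
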